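import Pool.Agent.helper74.MQ.Spec

/-!
# mq:GL. A flat disc that meets another cylinder gives a strip
-/

set_option autoImplicit false

open Complex Metric Set Filter Topology MeasureTheory MPS

namespace MQ

theorem GL_lim {k : ℕ} [NeZero k] {b g : ZMod k → ℂ} {i : ZMod k} {ψ : ℂ → ℂ}
    (h : PN b g i ψ 1) (v : ℂ) :
    Tendsto (fun t : ℝ => hat ψ (v + (t : ℂ))) atBot (𝓝 (b i)) := by
  have h1 : Tendsto (fun t : ℝ => Complex.exp (v + (t : ℂ))) atBot (𝓝 0) := by
    rw [tendsto_zero_iff_norm_tendsto_zero]
    have h2 : ∀ t : ℝ, ‖Complex.exp (v + (t : ℂ))‖ = Real.exp v.re * Real.exp t := by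
      intro t
      rw [Complex.norm_exp, Complex.add_re, Complex.ofReal_re, Real.exp_add]
    simp only [h2]
    simpa using Real.tendsto_exp_atBot.const_mul (Real.exp v.re)
  have h3 : ContinuousAt ψ 0 :=
    (h.diff.differentiableAt (ball_mem_nhds 0 h.pos)).continuousAt
  have h4 := h3.tendsto.comp h1
  rw [h.val] at h4
  exact h4

theorem GL_glue {k : ℕ} [NeZero k] {b g : ZMod k → ℂ} {U : Set ℂ} {F : ℂ → ℂ}
    (h : ∀ w ∈ U, ∃ (V : Set ℂ) (G : ℂ → ℂ), IsOpen V ∧ w ∈ V ∧ IsNat b g G V ∧ EqOn F G V) :
    IsNat b g F U := by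
  refine ⟨?_, ?_, ?_⟩
  · intro w hw
    obtain ⟨V, G, hV, hwV, hG, he⟩ := h w hw
    have h1 : F =ᶠ[𝓝 w] G := he.eventuallyEq_of_mem (hV.mem_nhds hwV)
    exact ((hG.diff.differentiableAt (hV.mem_nhds hwV)).congr_of_eventuallyEq
      h1).differentiableWithinAt
  · intro w hw j
    obtain ⟨V, G, hV, hwV, hG, he⟩ := h w hw
    rw [he hwV]
    exact hG.av w hwV j
  · intro w hw
    obtain ⟨V, G, hV, hwV, hG, he⟩ := h w hw
    have h1 : F =ᶠ[𝓝 w] G := he.eventuallyEq_of_mem (hV.mem_nhds hwV)
    rw [h1.deriv_eq, he hwV]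
    exact hG.eq w hwV

theorem GL_refl {k : ℕ} [NeZero k] {b g : ZMod k → ℂ} {G : ℂ → ℂ} {V W : Set ℂ} {S : ℂ}
    (hV : IsOpen V) (hG : IsNat b g G V) (hW : ∀ w ∈ W, S - w ∈ V) :
    IsNat b g (fun w => G (S - w)) W := by
  refine ⟨?_, ?_, ?_⟩
  · intro w hw
    have h1 : DifferentiableAt ℂ G (S - w) := hG.diff.differentiableAt (hV.mem_nhds (hW w hw))
    exact (h1.comp w ((differentiableAt_const S).sub differentiableAt_id)).differentiableWithinAt
  · intro w hw j
    exact hG.av _ (hW w hw) j
  · intro w hw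
    rw [deriv_comp_const_sub, neg_sq]
    exact hG.eq _ (hW w hw)

theorem GL_ok (hNU : NU_stmt) (hNH : NH_stmt) (hND : ND_stmt) : GL_stmt := by
  intro k _ b g ψ hF i l χ y r e v v' hil he hχ hE hv hv' heq hr
  have hi := (hF.mx i).pn
  have hl := (hF.mx l).pn
  have hr0 : 0 < r := by
    rw [mem_ball] at hv
    exact lt_of_le_of_lt dist_nonneg hv
  have hvΩ : v ∈ HP 0 ∪ ball ((y : ℂ) * I) r := Or.inr hv
  have hnl := (hNH k b g l (ψ l) 1 hl).1
  rw [Real.log_one] at hnl
  have o1 : IsOpen (HP 0 ∪ ball ((y : ℂ) * I) r) :=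
    (isOpen_lt Complex.continuous_re continuous_const).union isOpen_ball
  have o2 : IsOpen {w : ℂ | w.re < 0} := isOpen_lt Complex.continuous_re continuous_const
  have hmem : ∀ w : ℂ, w ∈ ball ((y : ℂ) * I) r ↔ w.re ^ 2 + (w.im - y) ^ 2 < r ^ 2 := by
    intro w
    rw [mem_ball, dist_eq_norm, ← abs_of_pos hr0, ← abs_of_nonneg (norm_nonneg _), ← sq_lt_sq,
      Complex.sq_norm, Complex.normSq_apply]
    simp
    constructor <;> intro h <;> nlinarith
  obtain ⟨s, hs, -, hK, hseg⟩ := hNU k b g χ (hat (ψ l)) _ _ v v' o1 o2 hχ hnl hvΩ hv' heq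
  rcases hs with hs | hs
  · exfalso
    have hleft : ∀ t : ℝ, t ≤ 0 → χ (v + (t : ℂ)) = hat (ψ l) (v' + (t : ℂ)) := by
      intro t ht
      have h1 := (hseg (t : ℂ) ?_).1
      · rw [hs, one_mul] at h1
        exact h1
      · intro a ha
        have hrt : a * t ≤ 0 := mul_nonpos_of_nonneg_of_nonpos ha.1 ht
        refine ⟨?_, ?_⟩
        · by_cases hc : (v + (a : ℂ) * (t : ℂ)).re < 0
          · left
            show _ < -(0 : ℝ)
            rw [neg_zero]
            exact hc
          · right
            rw [hmem]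
            have e1 : (v + (a : ℂ) * (t : ℂ)).re = v.re + a * t := by simp
            have e2 : (v + (a : ℂ) * (t : ℂ)).im = v.im := by simp
            rw [e1, e2]
            rw [e1] at hc
            have h4 := not_lt.1 hc
            have h5 := (hmem v).1 hv
            nlinarith
        · show (v' + s * ((a : ℂ) * (t : ℂ))).re < 0
          rw [hs, one_mul]
          have e3 : (v' + (a : ℂ) * (t : ℂ)).re = v'.re + a * t := by simp
          rw [e3]
          linarith
    have l1 := GL_lim hi v
    have l2 := GL_lim hl v'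
    have l3 : (fun t : ℝ => hat (ψ i) (v + (t : ℂ))) =ᶠ[atBot]
        fun t : ℝ => hat (ψ l) (v' + (t : ℂ)) := by
      filter_upwards [eventually_lt_atBot (min 0 (-v.re))] with t ht
      rw [← hleft t (lt_of_lt_of_le ht (min_le_left _ _)).le]
      refine (hE ?_).symm
      show (v + (t : ℂ)).re < -(0 : ℝ)
      rw [Complex.add_re, Complex.ofReal_re]
      have h5 := lt_of_lt_of_le ht (min_le_right _ _)
      linarith
    exact hil (hF.inj (tendsto_nhds_unique l1 (l2.congr' l3.symm)))
  · set S : ℂ := v + v' with hS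
    -- agreement on the ball
    have hag : ∀ w ∈ ball ((y : ℂ) * I) r, S.re < w.re → χ w = hat (ψ l) (S - w) := by
      intro w hw hwS
      have h1 := (hseg (w - v) ?_).1
      · rw [hs, add_sub_cancel] at h1
        rw [h1]
        congr 1
        rw [hS]
        ring
      · intro a ha
        refine ⟨Or.inr ?_, ?_⟩
        · have h8 := (convex_ball ((y : ℂ) * I) r) hv hw (by linarith [ha.2] : (0 : ℝ) ≤ 1 - a)
            ha.1 (by ring)
          have e4 : v + (a : ℂ) * (w - v) = (1 - a) • v + a • w := by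
            rw [Complex.real_smul, Complex.real_smul]
            push_cast
            ring
          rw [e4]
          exact h8
        · show (v' + s * ((a : ℂ) * (w - v))).re < 0
          rw [hs]
          have e3 : (v' + -1 * ((a : ℂ) * (w - v))).re = v'.re - a * (w.re - v.re) := by
            simp
            ring
          rw [e3]
          have h6 : v.re + v'.re < w.re := by
            rw [hS, Complex.add_re] at hwS
            exact hwS
          have h7 : 0 ≤ a := ha.1
          have h9 : a ≤ 1 := ha.2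
          rcases h7.eq_or_lt with h8 | h8
          · rw [← h8]
            linarith
          · have h10 : a * v'.re < a * (w.re - v.re) := mul_lt_mul_of_pos_left (by linarith) h8
            have h11 : (1 - a) * v'.re ≤ 0 :=
              mul_nonpos_of_nonneg_of_nonpos (by linarith) hv'.le
            linarith
    have hS0 : 0 ≤ S.re := by
      by_contra hneg
      rw [not_le] at hneg
      -- a point of the vertical strip reached from the ball
      obtain ⟨c, hc1, hc2, hc3⟩ : ∃ c : ℝ, c < 0 ∧ S.re < c ∧ c ^ 2 < r ^ 2 := by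
        refine ⟨-(min (-S.re) r / 2), ?_, ?_, ?_⟩
        · have := lt_min (neg_pos.2 hneg) hr0
          linarith
        · have := min_le_left (-S.re) r
          linarith
        · have h1 := lt_min (neg_pos.2 hneg) hr0
          have h2 := min_le_right (-S.re) r
          nlinarith
      have hcm : ((c : ℂ) + y * I) ∈ ball ((y : ℂ) * I) r := by
        rw [hmem]
        simp
        exact hc3
      have h1 := hag _ hcm (by simpa using hc2)
      have h2 := hE (show ((c : ℂ) + y * I) ∈ HP 0 by
        show _ < -(0 : ℝ)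
        simpa using hc1)
      rw [h2] at h1
      refine (Set.disjoint_left.1 (hND k b g i l (ψ i) (ψ l) hF.inj hil (hF.mx i) (hF.mx l)))
        (a := hat (ψ i) ((c : ℂ) + y * I)) ?_ ?_
      · refine ⟨Complex.exp ((c : ℂ) + y * I), ?_, rfl⟩
        rw [mem_ball_zero_iff, Complex.norm_exp, Real.exp_lt_one_iff]
        simpa using hc1
      · rw [h1]
        refine ⟨Complex.exp (S - ((c : ℂ) + y * I)), ?_, rfl⟩
        rw [mem_ball_zero_iff, Complex.norm_exp, Real.exp_lt_one_iff]
        simpa using hc2
    obtain ⟨μ, hμ, hμr⟩ : ∃ μ : ℝ, 0 < μ ∧ e ^ 2 + (S.re + μ) ^ 2 < r ^ 2 := by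
      have hcont : ContinuousAt (fun m : ℝ => e ^ 2 + (S.re + m) ^ 2) 0 := by fun_prop
      have h1 : ∀ᶠ m in 𝓝 (0 : ℝ), e ^ 2 + (S.re + m) ^ 2 < r ^ 2 := by
        apply hcont.eventually (gt_mem_nhds _)
        simpa using hr
      have h2 : ∀ᶠ m in 𝓝[>] (0 : ℝ), e ^ 2 + (S.re + m) ^ 2 < r ^ 2 :=
        nhdsWithin_le_nhds h1
      obtain ⟨m, hm1, hm2⟩ := (h2.and self_mem_nhdsWithin).exists
      exact ⟨m, hm2, hm1⟩
    have hin : ∀ w : ℂ, y - e < w.im → w.im < y + e → 0 ≤ w.re → w.re < S.re + μ →
        w ∈ ball ((y : ℂ) * I) r := by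
      intro w h1 h2 h3 h4
      rw [hmem]
      have h5 : (w.im - y) ^ 2 < e ^ 2 := by
        apply sq_lt_sq'
        · linarith
        · linarith
      have h6 : w.re ^ 2 ≤ (S.re + μ) ^ 2 := by nlinarith
      linarith
    refine ⟨fun w => if w.re < S.re + μ then χ w else hat (ψ l) (S - w), ?_, ?_, ?_⟩
    · apply GL_glue
      intro w hw
      by_cases hc : w.re < S.re + μ
      · refine ⟨{w | y - e < w.im ∧ w.im < y + e} ∩ {w | w.re < S.re + μ}, χ, ?_, ⟨hw, hc⟩, ?_, ?_⟩
        · exact ((isOpen_lt continuous_const Complex.continuous_im).inter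
            (isOpen_lt Complex.continuous_im continuous_const)).inter
            (isOpen_lt Complex.continuous_re continuous_const)
        · have hsub : {w : ℂ | y - e < w.im ∧ w.im < y + e} ∩ {w | w.re < S.re + μ} ⊆
              HP 0 ∪ ball ((y : ℂ) * I) r := by
            rintro z ⟨⟨hz1, hz2⟩, hz3⟩
            by_cases hz : z.re < 0
            · left
              show _ < -(0 : ℝ)
              rw [neg_zero]
              exact hz
            · right
              exact hin z hz1 hz2 (not_lt.1 hz) hz3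
          exact ⟨hχ.diff.mono hsub, fun z hz => hχ.av z (hsub hz), fun z hz => hχ.eq z (hsub hz)⟩
        · intro z hz
          exact if_pos hz.2
      · refine ⟨{w | y - e < w.im ∧ w.im < y + e} ∩ {w | S.re < w.re},
          fun w => hat (ψ l) (S - w), ?_, ⟨hw, ?_⟩, ?_, ?_⟩
        · exact ((isOpen_lt continuous_const Complex.continuous_im).inter
            (isOpen_lt Complex.continuous_im continuous_const)).inter
            (isOpen_lt continuous_const Complex.continuous_re)
        · show S.re < w.re
          linarith [not_lt.1 hc]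
        · refine GL_refl o2 hnl ?_
          rintro z ⟨-, hz⟩
          show (S - z).re < 0
          rw [Complex.sub_re]
          have : S.re < z.re := hz
          linarith
        · rintro z ⟨⟨hz1, hz2⟩, hz3⟩
          have hz3' : S.re < z.re := hz3
          show (if z.re < S.re + μ then χ z else hat (ψ l) (S - z)) = hat (ψ l) (S - z)
          split_ifs with hz4
          · exact hag z (hin z hz1 hz2 (by linarith) hz4) hz3'
          · rfl
    · intro w h1 h2 h3
      show (if w.re < S.re + μ then χ w else hat (ψ l) (S - w)) = _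
      rw [if_pos (by linarith)]
      exact hE (by show _ < -(0 : ℝ); rw [neg_zero]; exact h3)
    · intro w h1 h2 h3
      show (if w.re < S.re + μ then χ w else hat (ψ l) (S - w)) = _
      split_ifs with hc
      · exact hag w (hin w h1 h2 (by linarith) hc) h3
      · rfl

end MQ
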